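import Pool.Agent.H81.GT.TargetsT
import Pool.Agent.H54.LS.Sph

/-!
Theorem G, module PIE: kernel of a small cap.
-/

set_option autoImplicit false

namespace Pool.Agent.H35.G.PIE

open MeasureTheory Set FourierTransform
open scoped ENNReal NNReal RealInnerProductSpace
open Pool.Agent.H83.LS Pool.Agent.H54.LS Pool.Agent.H81.GT
open Pool.Agent.H83.G (Z)

/-! ### smooth building blocks -/

private theorem cd_pr {m : ℕ} : ContDiff ℝ (⊤ : ℕ∞) (pr : EE (m + 1) → EE m) := by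
  rw [contDiff_euclidean]
  intro i
  show ContDiff ℝ (⊤ : ℕ∞) fun x : EE (m + 1) => x i.castSucc
  exact (contDiff_euclidean.1 contDiff_id) i.castSucc

private theorem cd_last {m : ℕ} : ContDiff ℝ (⊤ : ℕ∞) (fun x : EE (m + 1) => x (Fin.last m)) :=
  (contDiff_euclidean.1 contDiff_id) (Fin.last m)

private theorem cd_jo {m : ℕ} {P : Type} [NormedAddCommGroup P] [NormedSpace ℝ P] {f : P → EE m}
    {g : P → ℝ} (hf : ContDiff ℝ (⊤ : ℕ∞) f) (hg : ContDiff ℝ (⊤ : ℕ∞) g) :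
    ContDiff ℝ (⊤ : ℕ∞) fun p => jo (f p) (g p) := by
  rw [contDiff_euclidean]
  intro i
  refine Fin.lastCases ?_ (fun j => ?_) i
  · simp only [jo_last]
    exact hg
  · simp only [jo_castSucc]
    exact (contDiff_euclidean.1 hf) j

private noncomputable def cc (t : ℝ) : ℝ :=
  Real.smoothTransition (5 * t - 7 / 2) * Real.smoothTransition (5 - t)

private noncomputable def rr (t : ℝ) : ℝ := Real.smoothTransition (10 * t - 6) * t⁻¹

private theorem cd_cc : ContDiff ℝ (⊤ : ℕ∞) cc := by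
  unfold cc
  exact (Real.smoothTransition.contDiff.comp ((contDiff_const.mul contDiff_id).sub
    contDiff_const)).mul (Real.smoothTransition.contDiff.comp (contDiff_const.sub contDiff_id))

private theorem cd_rr : ContDiff ℝ (⊤ : ℕ∞) rr := by
  rw [contDiff_iff_contDiffAt]
  intro t
  rcases lt_or_ge t (3 / 5) with h | h
  · have h1 : rr =ᶠ[nhds t] fun _ => (0 : ℝ) := by
      filter_upwards [eventually_lt_nhds h] with z hz
      unfold rr
      rw [Real.smoothTransition.zero_of_nonpos (by linarith), zero_mul]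
    exact contDiffAt_const.congr_of_eventuallyEq h1
  · unfold rr
    have h1 : ContDiff ℝ (⊤ : ℕ∞) fun t : ℝ => Real.smoothTransition (10 * t - 6) :=
      Real.smoothTransition.contDiff.comp ((contDiff_const.mul contDiff_id).sub contDiff_const)
    exact h1.contDiffAt.mul (contDiffAt_inv ℝ (by linarith))

private theorem cc_zero {t : ℝ} (h : t ≤ 7 / 10) : cc t = 0 := by
  unfold cc
  rw [Real.smoothTransition.zero_of_nonpos (by linarith), zero_mul]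

private theorem cc_zero' {t : ℝ} (h : 5 ≤ t) : cc t = 0 := by
  unfold cc
  rw [Real.smoothTransition.zero_of_nonpos (x := 5 - t) (by linarith), mul_zero]

private theorem cc_one {t : ℝ} (h : 9 / 10 ≤ t) (h' : t ≤ 4) : cc t = 1 := by
  unfold cc
  rw [Real.smoothTransition.one_of_one_le (by linarith),
    Real.smoothTransition.one_of_one_le (x := 5 - t) (by linarith), one_mul]

private theorem rr_inv {t : ℝ} (h : 7 / 10 ≤ t) : rr t = t⁻¹ := by
  unfold rr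
  rw [Real.smoothTransition.one_of_one_le (by linarith), one_mul]

private theorem cd_Bu {n : ℕ} : ContDiff ℝ (⊤ : ℕ∞) (Bu : EE n → ℝ) := by
  unfold Bu
  exact Real.smoothTransition.contDiff.comp (contDiff_const.sub (contDiff_norm_sq ℝ))

/-- parameters `w, θ, σ, θ', σ'` -/
private abbrev PP (n : ℕ) : Type := ℝ × EE n × ℝ × EE n × ℝ

private noncomputable def uu {n : ℕ} (q : PP n × EE (n + 1)) : EE n :=
  q.2 (Fin.last n) • q.1.2.1 + q.1.2.2.1 • pr q.2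

private noncomputable def Ps {n : ℕ} (a : EE (n + 1) → ℂ) (β : EE n → ℝ)
    (q : PP n × EE (n + 1)) : ℂ :=
  e (q.1.1 * ‖pr q.2‖ ^ 2 * rr (q.2 (Fin.last n))) *
    (((cc (q.2 (Fin.last n)) * ((1 + ‖uu q‖ ^ 2 * rr (q.2 (Fin.last n)) ^ 2) / 2) : ℝ) : ℂ) *
    (a (jo (uu q) ((q.2 (Fin.last n) - ‖uu q‖ ^ 2 * rr (q.2 (Fin.last n))) / 2)) *
    ((Bu (q.1.2.2.2.1 + (q.1.2.2.2.2 * rr (q.2 (Fin.last n))) • pr q.2) : ℝ) : ℂ) *
    ((β (rr (q.2 (Fin.last n)) • pr q.2) : ℝ) : ℂ)))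

private theorem cd_uu {n : ℕ} : ContDiff ℝ (⊤ : ℕ∞) (uu : PP n × EE (n + 1) → EE n) := by
  unfold uu
  have h1 : ContDiff ℝ (⊤ : ℕ∞) fun q : PP n × EE (n + 1) => q.2 (Fin.last n) :=
    cd_last.comp contDiff_snd
  have h2 : ContDiff ℝ (⊤ : ℕ∞) fun q : PP n × EE (n + 1) => pr q.2 := cd_pr.comp contDiff_snd
  have h3 : ContDiff ℝ (⊤ : ℕ∞) fun q : PP n × EE (n + 1) => q.1.2.1 :=
    contDiff_fst.comp (contDiff_snd.comp contDiff_fst)
  have h4 : ContDiff ℝ (⊤ : ℕ∞) fun q : PP n × EE (n + 1) => q.1.2.2.1 :=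
    contDiff_fst.comp (contDiff_snd.comp (contDiff_snd.comp contDiff_fst))
  exact (h1.smul h3).add (h4.smul h2)

private theorem cd_Ps {n : ℕ} (a : EE (n + 1) → ℂ) (β : EE n → ℝ) (ha : ContDiff ℝ (⊤ : ℕ∞) a)
    (hβ : ContDiff ℝ (⊤ : ℕ∞) β) : ContDiff ℝ (⊤ : ℕ∞) (Ps a β) := by
  have h1 : ContDiff ℝ (⊤ : ℕ∞) fun q : PP n × EE (n + 1) => q.2 (Fin.last n) :=
    cd_last.comp contDiff_snd
  have h2 : ContDiff ℝ (⊤ : ℕ∞) fun q : PP n × EE (n + 1) => pr q.2 := cd_pr.comp contDiff_snd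
  have h3 : ContDiff ℝ (⊤ : ℕ∞) fun q : PP n × EE (n + 1) => q.1.1 :=
    contDiff_fst.comp contDiff_fst
  have h4 : ContDiff ℝ (⊤ : ℕ∞) fun q : PP n × EE (n + 1) => q.1.2.2.2.1 :=
    contDiff_fst.comp (contDiff_snd.comp (contDiff_snd.comp (contDiff_snd.comp contDiff_fst)))
  have h5 : ContDiff ℝ (⊤ : ℕ∞) fun q : PP n × EE (n + 1) => q.1.2.2.2.2 :=
    contDiff_snd.comp (contDiff_snd.comp (contDiff_snd.comp (contDiff_snd.comp contDiff_fst)))
  have h6 : ContDiff ℝ (⊤ : ℕ∞) fun q : PP n × EE (n + 1) => rr (q.2 (Fin.last n)) :=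
    cd_rr.comp h1
  have h7 : ContDiff ℝ (⊤ : ℕ∞) fun q : PP n × EE (n + 1) => cc (q.2 (Fin.last n)) :=
    cd_cc.comp h1
  have h8 : ContDiff ℝ (⊤ : ℕ∞) fun q : PP n × EE (n + 1) => ‖pr q.2‖ ^ 2 :=
    (contDiff_norm_sq ℝ).comp h2
  have h9 : ContDiff ℝ (⊤ : ℕ∞) fun q : PP n × EE (n + 1) => ‖uu q‖ ^ 2 :=
    (contDiff_norm_sq ℝ).comp cd_uu
  have i1 : ContDiff ℝ (⊤ : ℕ∞) fun q : PP n × EE (n + 1) =>
      e (q.1.1 * ‖pr q.2‖ ^ 2 * rr (q.2 (Fin.last n))) :=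
    contDiff_e.comp ((h3.mul h8).mul h6)
  have i2 : ContDiff ℝ (⊤ : ℕ∞) fun q : PP n × EE (n + 1) =>
      ((cc (q.2 (Fin.last n)) * ((1 + ‖uu q‖ ^ 2 * rr (q.2 (Fin.last n)) ^ 2) / 2) : ℝ) : ℂ) :=
    Complex.ofRealCLM.contDiff.comp (h7.mul ((contDiff_const.add (h9.mul (h6.pow 2))).div_const 2))
  have i3 : ContDiff ℝ (⊤ : ℕ∞) fun q : PP n × EE (n + 1) =>
      a (jo (uu q) ((q.2 (Fin.last n) - ‖uu q‖ ^ 2 * rr (q.2 (Fin.last n))) / 2)) :=
    ha.comp (cd_jo cd_uu ((h1.sub (h9.mul h6)).div_const 2))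
  have i4 : ContDiff ℝ (⊤ : ℕ∞) fun q : PP n × EE (n + 1) =>
      ((Bu (q.1.2.2.2.1 + (q.1.2.2.2.2 * rr (q.2 (Fin.last n))) • pr q.2) : ℝ) : ℂ) :=
    Complex.ofRealCLM.contDiff.comp (cd_Bu.comp (h4.add ((h5.mul h6).smul h2)))
  have i5 : ContDiff ℝ (⊤ : ℕ∞) fun q : PP n × EE (n + 1) =>
      ((β (rr (q.2 (Fin.last n)) • pr q.2) : ℝ) : ℂ) :=
    Complex.ofRealCLM.contDiff.comp (hβ.comp (h6.smul h2))
  exact i1.mul (i2.mul ((i3.mul i4).mul i5))

private theorem Ps_zero {n : ℕ} (a : EE (n + 1) → ℂ) (β : EE n → ℝ)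
    (hβ : ∀ x, 1 ≤ ‖x‖ → β x = 0) (p : PP n) (ξ : EE (n + 1)) (h : 10 < ‖ξ‖) :
    Ps a β (p, ξ) = 0 := by
  unfold Ps
  simp only
  rcases le_or_gt (ξ (Fin.last n)) (7 / 10) with h1 | h1
  · rw [cc_zero h1]
    simp
  rcases le_or_gt 5 (ξ (Fin.last n)) with h2 | h2
  · rw [cc_zero' h2]
    simp
  have h3 : β (rr (ξ (Fin.last n)) • pr ξ) = 0 := by
    apply hβ
    rw [rr_inv h1.le, norm_smul, Real.norm_eq_abs, abs_of_pos (by positivity),
      inv_mul_eq_div, le_div_iff₀ (by linarith), one_mul]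
    have h4 : ‖ξ‖ ^ 2 = ‖pr ξ‖ ^ 2 + (ξ (Fin.last n)) ^ 2 := by
      conv_lhs => rw [← jo_pr ξ]
      exact jo_norm_sq _ _
    have h5 := norm_nonneg (pr ξ)
    nlinarith
  rw [h3]
  simp

/-! ### the change of variables -/

private noncomputable def TT {n : ℕ} (θ : EE n) (σ : ℝ) (q : EE n × ℝ) : EE n × ℝ :=
  (q.2 • θ + σ • q.1, q.2)

private theorem cont_TT {n : ℕ} (θ : EE n) (σ : ℝ) : Continuous (TT θ σ) := by
  unfold TT
  fun_prop

private theorem inj_TT {n : ℕ} (θ : EE n) (σ : ℝ) (hσ : 0 < σ) :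
    Function.Injective (TT θ σ) := by
  rintro ⟨x, t⟩ ⟨x', t'⟩ h
  unfold TT at h
  simp only [Prod.mk.injEq] at h
  obtain ⟨h1, rfl⟩ := h
  have h2 : σ • x = σ • x' := add_left_cancel h1
  rw [smul_right_injective _ hσ.ne' h2]

private theorem map_TT {n : ℕ} (θ : EE n) (σ : ℝ) (hσ : 0 < σ) :
    Measure.map (TT θ σ) (volume : Measure (EE n × ℝ)) =
      ENNReal.ofReal ((σ ^ n)⁻¹) • (volume : Measure (EE n × ℝ)) := by
  ext s hs
  rw [Measure.map_apply (cont_TT θ σ).measurable hs, Measure.smul_apply, smul_eq_mul,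
    Measure.volume_eq_prod, Measure.prod_apply_symm ((cont_TT θ σ).measurable hs),
    Measure.prod_apply_symm hs, ← lintegral_const_mul' _ _ ENNReal.ofReal_ne_top]
  refine lintegral_congr fun t => ?_
  have h1 : (fun x : EE n => (x, t)) ⁻¹' (TT θ σ ⁻¹' s) =
      (fun x : EE n => σ • x) ⁻¹' ((fun x => t • θ + x) ⁻¹' ((fun x : EE n => (x, t)) ⁻¹' s)) := by
    ext x
    rfl
  rw [h1, Measure.addHaar_preimage_smul _ hσ.ne', measure_preimage_add, finrank_euclideanSpace_fin,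
    abs_of_pos (by positivity)]

private theorem int_TT {n : ℕ} (θ : EE n) (σ : ℝ) (hσ : 0 < σ) (g : EE n × ℝ → ℂ) :
    ∫ q, g q = ((σ ^ n : ℝ) : ℂ) * ∫ q, g (TT θ σ q) := by
  have h1 : MeasurableEmbedding (TT θ σ) :=
    (cont_TT θ σ).measurableEmbedding (inj_TT θ σ hσ)
  have h2 := h1.integral_map (μ := (volume : Measure (EE n × ℝ))) g
  rw [map_TT θ σ hσ, integral_smul_measure, ENNReal.toReal_ofReal (by positivity)] at h2
  rw [← h2, Complex.real_smul, ← mul_assoc, ← Complex.ofReal_mul,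
    mul_inv_cancel₀ (by positivity), Complex.ofReal_one, one_mul]

private theorem int_jo {n : ℕ} (g : EE (n + 1) → ℂ) :
    ∫ ξ, g ξ = ∫ q : EE n × ℝ, g (jo q.1 q.2) := by
  have h2 : MeasurableEmbedding fun q : EE n × ℝ => jo q.1 q.2 := by
    have : (fun q : EE n × ℝ => jo q.1 q.2) = Pool.Agent.H87.LS.spl n := by
      funext q
      exact jo_eq_spl q.1 q.2
    rw [this]
    exact (Pool.Agent.H87.LS.spl n).measurableEmbedding
  exact ((mp_jo n).integral_comp h2 g).symm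

/-! ### the points of the cone -/

private theorem al_jo {n : ℕ} (u : EE n) (t : ℝ) (ht : 0 < t) :
    al (jo u ((t - ‖u‖ ^ 2 / t) / 2)) = t := by
  unfold al
  rw [jo_last]
  have h1 : ‖jo u ((t - ‖u‖ ^ 2 / t) / 2)‖ = (t + ‖u‖ ^ 2 / t) / 2 := by
    have h2 : 0 ≤ (t + ‖u‖ ^ 2 / t) / 2 := by positivity
    rw [← Real.sqrt_sq (norm_nonneg _), jo_norm_sq, ← Real.sqrt_sq h2]
    congr 1
    field_simp
    ring
  rw [h1]
  ring

private theorem al_bd {n : ℕ} {κ : ℝ} {a : EE (n + 1) → ℂ} (hκ : κ ≤ 1 / 8) (ha : SymE n κ a)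
    (ξ : EE (n + 1)) (h : a ξ ≠ 0) : 15 / 16 ≤ al ξ ∧ al ξ ≤ 4 := by
  obtain ⟨h1, h2, h3⟩ := ha.2 ξ h
  unfold al
  have h4 : ξ (Fin.last n) ≤ ‖ξ‖ := by
    have h5 : ‖ξ‖ ^ 2 = ‖pr ξ‖ ^ 2 + (ξ (Fin.last n)) ^ 2 := by
      conv_lhs => rw [← jo_pr ξ]
      exact jo_norm_sq _ _
    have h6 := norm_nonneg ξ
    have h7 := norm_nonneg (pr ξ)
    exact le_of_abs_le (abs_le_of_sq_le_sq (by nlinarith) h6)
  constructor
  · nlinarith
  · linarith

private theorem b_cont {n : ℕ} {κ : ℝ} {b : EE (n + 1) → ℂ} (hκ : κ ≤ 1 / 8) (hb : SymE n κ b)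
    (g : EE n → ℝ) (hg : Continuous g) (σ : ℝ) (θ : EE n) :
    Continuous (fun ξ => b ξ * ((g (σ⁻¹ • ((al ξ)⁻¹ • pr ξ - θ)) : ℝ) : ℂ)) := by
  rw [continuous_iff_continuousAt]
  intro ξ
  have hal : Continuous (al : EE (n + 1) → ℝ) := by
    unfold al
    fun_prop
  by_cases h : al ξ = 0
  · have h1 : ∀ᶠ ξ' in nhds ξ, al ξ' < 15 / 16 :=
      (hal.tendsto ξ).eventually_lt_const (by rw [h]; norm_num)
    have h2 : (fun ξ => b ξ * ((g (σ⁻¹ • ((al ξ)⁻¹ • pr ξ - θ)) : ℝ) : ℂ)) =ᶠ[nhds ξ]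
        fun _ => 0 := by
      filter_upwards [h1] with ξ' h3
      have h4 : b ξ' = 0 := by
        by_contra h5
        exact absurd (al_bd hκ hb ξ' h5).1 (not_le.2 h3)
      rw [h4, zero_mul]
    exact continuousAt_const.congr h2.symm
  · have h1 : ContinuousAt (fun ξ : EE (n + 1) => (al ξ)⁻¹) ξ := hal.continuousAt.inv₀ h
    have h2' : ContinuousAt (fun ξ : EE (n + 1) => (al ξ)⁻¹ • pr ξ) ξ :=
      h1.smul continuous_pr.continuousAt
    have h2 : ContinuousAt (fun ξ : EE (n + 1) => σ⁻¹ • ((al ξ)⁻¹ • pr ξ - θ)) ξ :=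
      (h2'.sub continuousAt_const).const_smul σ⁻¹
    have h3 : ContinuousAt (fun ξ : EE (n + 1) => g (σ⁻¹ • ((al ξ)⁻¹ • pr ξ - θ))) ξ :=
      ContinuousAt.comp (g := g) hg.continuousAt h2
    exact hb.1.continuous.continuousAt.mul
      (Complex.continuous_ofReal.continuousAt.comp h3)

/-- the kernel in the new coordinates -/
private theorem key {n : ℕ} (hSUB : T_SUB) (hACS : T_ACS) {κ : ℝ} {a : EE (n + 1) → ℂ}
    {β : EE n → ℝ} (hκ : κ ≤ 1 / 8) (ha : SymE n κ a) (hβ : ContDiff ℝ (⊤ : ℕ∞) β)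
    (η θ : EE n) (s σ : ℝ) (z : Z n) (hs : 0 < s) (hσ : 0 < σ) :
    Kt (fun ξ => ac a η s ξ * (β (σ⁻¹ • ((al ξ)⁻¹ • pr ξ - θ)) : ℂ)) (tz z) (xz z) =
      ((σ ^ n : ℝ) : ℂ) * MK (fun ξ => Ps a β ((σ ^ 2 * z.2.2, θ, σ, s⁻¹ • (θ - η), s⁻¹ * σ), ξ))
        (jo (σ • Yz z θ) (Qz z θ)) := by
  have hac := (hACS n κ s η a hκ ha hs).1
  have hacs : ∀ ξ, ac a η s ξ ≠ 0 → a ξ ≠ 0 := by
    intro ξ h h0
    apply h
    unfold ac
    rw [h0, zero_mul]
  rw [hSUB n (fun ξ => ac a η s ξ * (β (σ⁻¹ • ((al ξ)⁻¹ • pr ξ - θ)) : ℂ)) z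
    (b_cont hκ hac β hβ.continuous σ θ) (hac.cs.mul_right) ?_]
  · rw [← integral_indicator (measurableSet_lt measurable_const measurable_snd),
      int_TT θ σ hσ]
    congr 1
    unfold MK
    rw [int_jo]
    refine integral_congr_ae (ae_of_all _ fun q => ?_)
    obtain ⟨x, t⟩ := q
    simp only [TT]
    rcases le_or_gt t 0 with ht | ht
    · rw [indicator_of_notMem (by simp [ht])]
      unfold Ps
      simp only [jo_last]
      rw [cc_zero (by linarith)]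
      simp
    rw [indicator_of_mem (by simp [ht])]
    simp only
    set u : EE n := t • θ + σ • x with hu
    have hal := al_jo u t ht
    set ξ : EE (n + 1) := jo u ((t - ‖u‖ ^ 2 / t) / 2) with hξ
    have hpr : pr ξ = u := pr_jo _ _
    have hξ' : jo u ((t - ‖u‖ ^ 2 * t⁻¹) / 2) = ξ := by
      rw [hξ, div_eq_mul_inv (‖u‖ ^ 2) t]
    have huu : ∀ p : PP n, p.2.1 = θ → p.2.2.1 = σ → uu (p, jo x t) = u := by
      intro p h1 h2
      unfold uu
      simp only [jo_last, pr_jo]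
      rw [h1, h2]
    by_cases h0 : a ξ = 0
    · have h1 : ac a η s ξ = 0 := by
        by_contra h
        exact hacs ξ h h0
      rw [h1]
      unfold Ps
      simp only [jo_last, pr_jo]
      rw [huu _ rfl rfl]
      rcases le_or_gt t (7 / 10) with h2 | h2
      · rw [cc_zero h2]
        simp
      · rw [rr_inv h2.le, hξ', h0]
        simp
    · obtain ⟨h1, h2⟩ := al_bd hκ ha ξ h0
      rw [hal] at h1 h2
      unfold Ps
      simp only [jo_last, pr_jo]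
      rw [huu _ rfl rfl, rr_inv (by linarith), cc_one (by linarith) h2, hξ']
      unfold ac
      rw [hal, hpr]
      have ht0 : t ≠ 0 := ht.ne'
      have h3 : t⁻¹ • u - θ = (t⁻¹ * σ) • x := by
        rw [hu, smul_add, smul_smul, smul_smul, inv_mul_cancel₀ ht0, one_smul,
          add_sub_cancel_left]
      have h4 : σ⁻¹ • (t⁻¹ • u - θ) = t⁻¹ • x := by
        rw [h3, smul_smul]
        congr 1
        field_simp
      have h5 : s⁻¹ • (t⁻¹ • u - η) = s⁻¹ • (θ - η) + (s⁻¹ * σ * t⁻¹) • x := by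
        have h6 : t⁻¹ • u - η = (θ - η) + (t⁻¹ * σ) • x := by
          rw [← h3]
          abel
        rw [h6, smul_add, smul_smul]
        congr 2
        ring
      rw [h4, h5, jo_inner]
      have h7 : z.1 * t + ⟪z.2.1, u⟫ + z.2.2 * ‖u‖ ^ 2 / t =
          (⟪σ • Yz z θ, x⟫ + Qz z θ * t) + σ ^ 2 * z.2.2 * ‖x‖ ^ 2 * t⁻¹ := by
        have h8 : ‖u‖ ^ 2 = t ^ 2 * ‖θ‖ ^ 2 + 2 * (t * σ * ⟪θ, x⟫) + σ ^ 2 * ‖x‖ ^ 2 := by
          rw [hu, ← real_inner_self_eq_norm_sq, inner_add_left, inner_add_right, inner_add_right,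
            real_inner_smul_left, real_inner_smul_left, real_inner_smul_left,
            real_inner_smul_left, real_inner_smul_right, real_inner_smul_right,
            real_inner_smul_right, real_inner_smul_right, real_inner_self_eq_norm_sq,
            real_inner_self_eq_norm_sq, real_inner_comm x θ]
          ring
        rw [h8, hu, inner_add_right, real_inner_smul_right, real_inner_smul_right]
        unfold Yz Qz
        rw [real_inner_smul_left, inner_add_left, real_inner_smul_left]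
        field_simp
        ring
      rw [h7, e_add]
      have h9 : ‖u‖ ^ 2 / t ^ 2 = ‖u‖ ^ 2 * t⁻¹ ^ 2 := by
        rw [inv_pow, div_eq_mul_inv]
      rw [h9, one_mul]
      push_cast
      ring
  · intro ξ h
    have h1 : a ξ ≠ 0 := hacs ξ (left_ne_zero_of_mul h)
    obtain ⟨h2, -, h3⟩ := ha.2 ξ h1
    nlinarith

/-- PIE: kernel of a small cap -/
theorem pf_PIE (hSUB : T_SUB) (hKBV : T_KBV) (hACS : T_ACS) : T_PIE := by
  intro n N κ a β _ hκ ha hβ hβ0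
  have hfr : Module.finrank ℝ (Fin (2 * n + 3) → ℝ) = Module.finrank ℝ (PP n) := by
    simp only [Module.finrank_pi, Module.finrank_prod, finrank_euclideanSpace, Fintype.card_fin,
      Module.finrank_self]
    ring
  let L : (Fin (2 * n + 3) → ℝ) ≃L[ℝ] PP n := ContinuousLinearEquiv.ofFinrankEq hfr
  have hK : IsCompact (L.symm '' Metric.closedBall (0 : PP n) 4) :=
    (isCompact_closedBall _ _).image L.symm.continuous
  obtain ⟨C, hC⟩ := hKBV (n + 1) (2 * n + 3) (L.symm '' Metric.closedBall (0 : PP n) 4) univ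
    (fun q => Ps a β (L q.1, q.2)) 10 hK isOpen_univ (subset_univ _)
    (((cd_Ps a β ha.1 hβ).comp (((L : (Fin (2 * n + 3) → ℝ) →L[ℝ] PP n).contDiff.comp
      contDiff_fst).prodMk contDiff_snd)).contDiffOn)
    (fun p _ ξ hξ => Ps_zero a β hβ0 (L p) ξ hξ) N
  refine ⟨|C| * 2 ^ N + 1, by positivity, fun η θ s σ z hs hs1 hσ hσs hw hθη hθ => ?_⟩
  rw [key hSUB hACS hκ ha hβ η θ s σ z hs hσ, norm_mul, Complex.norm_real,
    Real.norm_of_nonneg (by positivity)]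
  set p : PP n := (σ ^ 2 * z.2.2, θ, σ, s⁻¹ • (θ - η), s⁻¹ * σ) with hp
  have hpm : p ∈ Metric.closedBall (0 : PP n) 4 := by
    rw [mem_closedBall_zero_iff, hp]
    simp only [Prod.norm_def, sup_le_iff]
    refine ⟨?_, ?_, ?_, ?_, ?_⟩
    · rw [Real.norm_eq_abs, abs_mul, abs_of_nonneg (by positivity : (0 : ℝ) ≤ σ ^ 2)]
      linarith
    · linarith
    · rw [Real.norm_of_nonneg hσ.le]
      linarith
    · rw [norm_smul, Real.norm_of_nonneg (by positivity), inv_mul_eq_div, div_le_iff₀ hs]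
      linarith
    · rw [Real.norm_of_nonneg (by positivity), inv_mul_eq_div, div_le_iff₀ hs]
      linarith
  have h1 := hC (L.symm p) ⟨p, hpm, rfl⟩ (jo (σ • Yz z θ) (Qz z θ))
  simp only [ContinuousLinearEquiv.apply_symm_apply] at h1
  set X : EE (n + 1) := jo (σ • Yz z θ) (Qz z θ) with hX
  set M : ℝ := ‖MK (fun ξ => Ps a β (p, ξ)) X‖ with hM
  have hM0 : 0 ≤ M := norm_nonneg _
  have h2 : 1 + |Qz z θ| + σ * ‖Yz z θ‖ ≤ 2 * (1 + ‖X‖) := by
    have h3 : ‖X‖ ^ 2 = (σ * ‖Yz z θ‖) ^ 2 + |Qz z θ| ^ 2 := by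
      rw [hX, jo_norm_sq, norm_smul, Real.norm_of_nonneg hσ.le, sq_abs]
    have h4 : 0 ≤ σ * ‖Yz z θ‖ := by positivity
    have h5 := abs_nonneg (Qz z θ)
    have h6 := norm_nonneg X
    have h7 : σ * ‖Yz z θ‖ ≤ ‖X‖ := by
      refine le_of_sq_le_sq ?_ h6
      nlinarith
    have h8 : |Qz z θ| ≤ ‖X‖ := by
      refine le_of_sq_le_sq ?_ h6
      nlinarith
    linarith
  have h3 : 0 < 1 + |Qz z θ| + σ * ‖Yz z θ‖ := by positivity
  have h4 : (1 + |Qz z θ| + σ * ‖Yz z θ‖) ^ N ≤ 2 ^ N * (1 + ‖X‖) ^ N := by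
    rw [← mul_pow]
    exact pow_le_pow_left₀ h3.le h2 N
  have h5 : M * (1 + |Qz z θ| + σ * ‖Yz z θ‖) ^ N ≤ |C| * 2 ^ N + 1 := by
    calc M * (1 + |Qz z θ| + σ * ‖Yz z θ‖) ^ N ≤ M * (2 ^ N * (1 + ‖X‖) ^ N) :=
          mul_le_mul_of_nonneg_left h4 hM0
      _ = (M * (1 + ‖X‖) ^ N) * 2 ^ N := by ring
      _ ≤ |C| * 2 ^ N := mul_le_mul_of_nonneg_right (h1.trans (le_abs_self C)) (by positivity)
      _ ≤ _ := by linarith
  have h6 : M ≤ (|C| * 2 ^ N + 1) * ((1 + |Qz z θ| + σ * ‖Yz z θ‖) ^ N)⁻¹ := by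
    rw [← div_eq_mul_inv, le_div_iff₀ (by positivity)]
    exact h5
  calc σ ^ n * M ≤ σ ^ n * ((|C| * 2 ^ N + 1) * ((1 + |Qz z θ| + σ * ‖Yz z θ‖) ^ N)⁻¹) :=
        mul_le_mul_of_nonneg_left h6 (by positivity)
    _ = _ := by ring

end Pool.Agent.H35.G.PIE
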